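import Mathlib

set_option autoImplicit false
set_option maxRecDepth 100000

namespace Pool.Agent.Results.MP_9c9d6b_nt.Counter

open Polynomial

/-- The remainders r_n of the greedy expansion of 1 in base β. -/
noncomputable def rem (β : ℝ) : ℕ → ℝ
  | 0 => 1
  | n + 1 => β * rem β n - ⌊β * rem β n⌋

/-- The digits c_n (n ≥ 1) of the greedy expansion of 1 in base β. -/
noncomputable def dig (β : ℝ) (n : ℕ) : ℤ := ⌊β * rem β (n - 1)⌋

/-- The expansion is periodic with period p after m digits. -/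
def EvPer (β : ℝ) (m p : ℕ) : Prop := 1 ≤ p ∧ ∀ n, 1 ≤ n → dig β (n + m) = dig β (n + m + p)

/-- m is the preperiod length and p the period length. -/
def PrePer (β : ℝ) (m p : ℕ) : Prop := EvPer β m p ∧ ∀ m' p', EvPer β m' p' → m ≤ m' ∧ p ≤ p'

/-- β is a Salem number with minimal polynomial P. -/
def IsSalem (β : ℝ) (P : ℤ[X]) : Prop :=
  P.Monic ∧ Irreducible P ∧ aeval β P = 0 ∧ 1 < β ∧
    (∀ z : ℂ, aeval z P = 0 → z ≠ β → ‖z‖ ≤ 1) ∧ ∃ z : ℂ, aeval z P = 0 ∧ ‖z‖ = 1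

/-- The polynomial P_k. -/
noncomputable def Pk (β : ℝ) (k : ℕ) : ℤ[X] :=
  X ^ k - ∑ i ∈ Finset.range k, C (dig β (i + 1)) * X ^ (k - (i + 1))

noncomputable def P6 : ℤ[X] := X ^ 6 - 5 * X ^ 5 - 3 * X ^ 4 + 2 * X ^ 3 - 3 * X ^ 2 - 5 * X + 1

noncomputable def Q27 : ℤ[X] := C (1) * X ^ 0 + C (1) * X ^ 2 + C (-1) * X ^ 3 + C (2) * X ^ 7 + C (-1) * X ^ 8 + C (2) * X ^ 9 + C (-2) * X ^ 10 + C (1) * X ^ 11 + C (-1) * X ^ 12 + C (1) * X ^ 13 + C (1) * X ^ 14 + C (1) * X ^ 16 + C (-2) * X ^ 17 + C (1) * X ^ 18 + C (-1) * X ^ 19 + C (2) * X ^ 20 + C (-1) * X ^ 24 + C (1) * X ^ 25 + C (1) * X ^ 27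

theorem P6_monic : P6.Monic := by unfold P6; monicity!
theorem P6_deg : P6.natDegree = 6 := by unfold P6; compute_degree!

set_option synthInstance.maxSize 4096 in
theorem no_fac : ∀ q0 s0 : ZMod 5, q0 * s0 = 1 → ∀ q1 s1 : ZMod 5, q0 * s1 + q1 * s0 = -5 →
    ∀ q2 s2 : ZMod 5, q0 * s2 + q1 * s1 + q2 * s0 = -3 →
    ∀ q3 s3 : ZMod 5, q0 * s3 + q1 * s2 + q2 * s1 + q3 * s0 = 2 →
    ∀ s4 : ZMod 5, q0 * s4 + q1 * s3 + q2 * s2 + q3 * s1 = -3 →
    ∀ s5 : ZMod 5, q0 * s5 + q1 * s4 + q2 * s3 + q3 * s2 = -5 →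
    q1 * s5 + q2 * s4 + q3 * s3 = 1 → q2 * s5 + q3 * s4 = 0 → q3 * s5 = 0 → False := by
  decide +kernel

theorem P6_irr : Irreducible P6 := by
  have : Fact (Nat.Prime 5) := ⟨by norm_num⟩
  refine P6_monic.irreducible_of_irreducible_map (Int.castRingHom (ZMod 5)) _ ?_
  have hm := P6_monic.map (Int.castRingHom (ZMod 5))
  have hd : (P6.map (Int.castRingHom (ZMod 5))).natDegree = 6 := by
    rw [P6_monic.natDegree_map, P6_deg]
  rw [hm.irreducible_iff_lt_natDegree_lt (fun h => by rw [h] at hd; simp at hd), hd]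
  rintro q hq hq1 ⟨s, hs⟩
  have hq2 := Finset.mem_Ioc.1 hq1
  have hs0 : s ≠ 0 := fun h => hm.ne_zero (by rw [hs, h, mul_zero])
  have hds := natDegree_mul hq.ne_zero hs0
  rw [← hs, hd] at hds
  have hqz : ∀ i, 3 < i → q.coeff i = 0 := fun i hi => coeff_eq_zero_of_natDegree_lt (by omega)
  have hsz : ∀ i, 5 < i → s.coeff i = 0 := fun i hi => coeff_eq_zero_of_natDegree_lt (by omega)
  have hc := fun i => congrArg (fun f => coeff f i) hs
  simp only [coeff_mul, Finset.Nat.sum_antidiagonal_eq_sum_range_succ_mk, coeff_map] at hc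
  have c0 := hc 0
  have c1 := hc 1
  have c2 := hc 2
  have c3 := hc 3
  have c4 := hc 4
  have c5 := hc 5
  have c6 := hc 6
  have c7 := hc 7
  have c8 := hc 8
  simp [Finset.sum_range_succ, hqz, hsz, P6, coeff_X, coeff_one, coeff_X_pow] at c0 c1 c2 c3 c4 c5 c6 c7
  simp only [Finset.sum_range_succ, Finset.sum_range_zero, hqz 4, hqz 5, hqz 6, hqz 7, hqz 8, hsz 6,
    hsz 7, hsz 8, Nat.reduceSub, Nat.reduceLT, Nat.succ_eq_add_one, Nat.reduceAdd, zero_add, mul_zero,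
    zero_mul, add_zero, coeff_eq_zero_of_natDegree_lt (show P6.natDegree < 8 by rw [P6_deg]; omega),
    map_zero] at c8
  exact no_fac _ _ c0.symm _ _ c1.symm _ _ c2.symm _ _ c3.symm _ c4.symm _ c5.symm c6.symm c7.symm c8.symm

theorem exists_beta : ∃ β : ℝ, (55024210191 : ℝ) / 10000000000 ≤ β ∧ β ≤ (55024210192 : ℝ) / 10000000000 ∧
    β ^ 6 - 5 * β ^ 5 - 3 * β ^ 4 + 2 * β ^ 3 - 3 * β ^ 2 - 5 * β + 1 = 0 := by
  obtain ⟨β, ⟨h1, h2⟩, h3⟩ := intermediate_value_Icc (a := (55024210191 : ℝ) / 10000000000) (b := (55024210192 : ℝ) / 10000000000)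
    (f := fun β : ℝ => β ^ 6 - 5 * β ^ 5 - 3 * β ^ 4 + 2 * β ^ 3 - 3 * β ^ 2 - 5 * β + 1) (by norm_num)
    (by fun_prop) (show (0 : ℝ) ∈ _ by constructor <;> norm_num)
  exact ⟨β, h1, h2, h3⟩

theorem step (β : ℝ) (n : ℕ) (c : ℤ) (x y : ℝ) (hx : rem β n = x) (hy : β * x = c + y) (h0 : 0 ≤ y)
    (h1 : y < 1) : dig β (n + 1) = c ∧ rem β (n + 1) = y := by
  have : ⌊β * rem β n⌋ = c := by
    rw [hx, hy, Int.floor_eq_iff]
    constructor <;> linarith
  refine ⟨this, ?_⟩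
  rw [rem, this, hx, hy]
  ring

def digs : List ℤ := [5, 2, 4, 1, 0, 4, 0, 5, 1, 0, 0, 4, 2, 2, 1, 2, 4, 1, 4, 0, 3, 3, 5, 0, 5, 0, 4, 0, 1, 4, 2, 4, 4]

theorem orbit (β : ℝ) (l1 : (55024210191 : ℝ) / 10000000000 ≤ β) (u1 : β ≤ (55024210192 : ℝ) / 10000000000)
    (h : β ^ 6 - 5 * β ^ 5 - 3 * β ^ 4 + 2 * β ^ 3 - 3 * β ^ 2 - 5 * β + 1 = 0) :
    (∀ i < 33, dig β (i + 1) = digs.getD i 0) ∧ rem β 33 = rem β 1 := by
  have l2 : (30276637 : ℝ) / 1000000 ≤ β ^ 2 := le_trans (by norm_num) (pow_le_pow_left₀ (by norm_num) l1 2)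
  have u2 : β ^ 2 ≤ (30276638 : ℝ) / 1000000 := le_trans (pow_le_pow_left₀ (by linarith) u1 2) (by norm_num)
  have l3 : (166594804 : ℝ) / 1000000 ≤ β ^ 3 := le_trans (by norm_num) (pow_le_pow_left₀ (by norm_num) l1 3)
  have u3 : β ^ 3 ≤ (166594805 : ℝ) / 1000000 := le_trans (pow_le_pow_left₀ (by linarith) u1 3) (by norm_num)
  have l4 : (916674752 : ℝ) / 1000000 ≤ β ^ 4 := le_trans (by norm_num) (pow_le_pow_left₀ (by norm_num) l1 4)
  have u4 : β ^ 4 ≤ (916674753 : ℝ) / 1000000 := le_trans (pow_le_pow_left₀ (by linarith) u1 4) (by norm_num)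
  have l5 : (5043930425 : ℝ) / 1000000 ≤ β ^ 5 := le_trans (by norm_num) (pow_le_pow_left₀ (by norm_num) l1 5)
  have u5 : β ^ 5 ≤ (5043930426 : ℝ) / 1000000 := le_trans (pow_le_pow_left₀ (by linarith) u1 5) (by norm_num)
  have s1 := step β 0 (5) _ ((-5) + (1) * β ^ 1 + (0) * β ^ 2 + (0) * β ^ 3 + (0) * β ^ 4 + (0) * β ^ 5) (show rem β 0 = 1 from rfl)
    (by linear_combination (0) * h) (by linarith) (by linarith)
  have s2 := step β 1 (2) _ ((-2) + (-5) * β ^ 1 + (1) * β ^ 2 + (0) * β ^ 3 + (0) * β ^ 4 + (0) * β ^ 5) s1.2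
    (by linear_combination (0) * h) (by linarith) (by linarith)
  have s3 := step β 2 (4) _ ((-4) + (-2) * β ^ 1 + (-5) * β ^ 2 + (1) * β ^ 3 + (0) * β ^ 4 + (0) * β ^ 5) s2.2
    (by linear_combination (0) * h) (by linarith) (by linarith)
  have s4 := step β 3 (1) _ ((-1) + (-4) * β ^ 1 + (-2) * β ^ 2 + (-5) * β ^ 3 + (1) * β ^ 4 + (0) * β ^ 5) s3.2
    (by linear_combination (0) * h) (by linarith) (by linarith)
  have s5 := step β 4 (0) _ ((0) + (-1) * β ^ 1 + (-4) * β ^ 2 + (-2) * β ^ 3 + (-5) * β ^ 4 + (1) * β ^ 5) s4.2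
    (by linear_combination (0) * h) (by linarith) (by linarith)
  have s6 := step β 5 (4) _ ((-5) + (5) * β ^ 1 + (2) * β ^ 2 + (-6) * β ^ 3 + (1) * β ^ 4 + (0) * β ^ 5) s5.2
    (by linear_combination (1) * h) (by linarith) (by linarith)
  have s7 := step β 6 (0) _ ((0) + (-5) * β ^ 1 + (5) * β ^ 2 + (2) * β ^ 3 + (-6) * β ^ 4 + (1) * β ^ 5) s6.2
    (by linear_combination (0) * h) (by linarith) (by linarith)
  have s8 := step β 7 (5) _ ((-6) + (5) * β ^ 1 + (-2) * β ^ 2 + (3) * β ^ 3 + (5) * β ^ 4 + (-1) * β ^ 5) s7.2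
    (by linear_combination (1) * h) (by linarith) (by linarith)
  have s9 := step β 8 (1) _ ((0) + (-11) * β ^ 1 + (2) * β ^ 2 + (0) * β ^ 3 + (0) * β ^ 4 + (0) * β ^ 5) s8.2
    (by linear_combination (-1) * h) (by linarith) (by linarith)
  have s10 := step β 9 (0) _ ((0) + (0) * β ^ 1 + (-11) * β ^ 2 + (2) * β ^ 3 + (0) * β ^ 4 + (0) * β ^ 5) s9.2
    (by linear_combination (0) * h) (by linarith) (by linarith)
  have s11 := step β 10 (0) _ ((0) + (0) * β ^ 1 + (0) * β ^ 2 + (-11) * β ^ 3 + (2) * β ^ 4 + (0) * β ^ 5) s10.2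
    (by linear_combination (0) * h) (by linarith) (by linarith)
  have s12 := step β 11 (4) _ ((-4) + (0) * β ^ 1 + (0) * β ^ 2 + (0) * β ^ 3 + (-11) * β ^ 4 + (2) * β ^ 5) s11.2
    (by linear_combination (0) * h) (by linarith) (by linarith)
  have s13 := step β 12 (2) _ ((-4) + (6) * β ^ 1 + (6) * β ^ 2 + (-4) * β ^ 3 + (6) * β ^ 4 + (-1) * β ^ 5) s12.2
    (by linear_combination (2) * h) (by linarith) (by linarith)
  have s14 := step β 13 (2) _ ((-1) + (-9) * β ^ 1 + (3) * β ^ 2 + (8) * β ^ 3 + (-7) * β ^ 4 + (1) * β ^ 5) s13.2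
    (by linear_combination (-1) * h) (by linarith) (by linarith)
  have s15 := step β 14 (1) _ ((-2) + (4) * β ^ 1 + (-6) * β ^ 2 + (1) * β ^ 3 + (11) * β ^ 4 + (-2) * β ^ 5) s14.2
    (by linear_combination (1) * h) (by linarith) (by linarith)
  have s16 := step β 15 (2) _ ((0) + (-12) * β ^ 1 + (-2) * β ^ 2 + (-2) * β ^ 3 + (-5) * β ^ 4 + (1) * β ^ 5) s15.2
    (by linear_combination (-2) * h) (by linarith) (by linarith)
  have s17 := step β 16 (4) _ ((-5) + (5) * β ^ 1 + (-9) * β ^ 2 + (-4) * β ^ 3 + (1) * β ^ 4 + (0) * β ^ 5) s16.2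
    (by linear_combination (1) * h) (by linarith) (by linarith)
  have s18 := step β 17 (1) _ ((-1) + (-5) * β ^ 1 + (5) * β ^ 2 + (-9) * β ^ 3 + (-4) * β ^ 4 + (1) * β ^ 5) s17.2
    (by linear_combination (0) * h) (by linarith) (by linarith)
  have s19 := step β 18 (4) _ ((-5) + (4) * β ^ 1 + (-2) * β ^ 2 + (3) * β ^ 3 + (-6) * β ^ 4 + (1) * β ^ 5) s18.2
    (by linear_combination (1) * h) (by linarith) (by linarith)
  have s20 := step β 19 (0) _ ((-1) + (0) * β ^ 1 + (7) * β ^ 2 + (-4) * β ^ 3 + (6) * β ^ 4 + (-1) * β ^ 5) s19.2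
    (by linear_combination (1) * h) (by linarith) (by linarith)
  have s21 := step β 20 (3) _ ((-2) + (-6) * β ^ 1 + (-3) * β ^ 2 + (9) * β ^ 3 + (-7) * β ^ 4 + (1) * β ^ 5) s20.2
    (by linear_combination (-1) * h) (by linarith) (by linarith)
  have s22 := step β 21 (3) _ ((-4) + (3) * β ^ 1 + (-3) * β ^ 2 + (-5) * β ^ 3 + (12) * β ^ 4 + (-2) * β ^ 5) s21.2
    (by linear_combination (1) * h) (by linarith) (by linarith)
  have s23 := step β 22 (5) _ ((-3) + (-14) * β ^ 1 + (-3) * β ^ 2 + (1) * β ^ 3 + (-11) * β ^ 4 + (2) * β ^ 5) s22.2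
    (by linear_combination (-2) * h) (by linarith) (by linarith)
  have s24 := step β 23 (0) _ ((-2) + (7) * β ^ 1 + (-8) * β ^ 2 + (-7) * β ^ 3 + (7) * β ^ 4 + (-1) * β ^ 5) s23.2
    (by linear_combination (2) * h) (by linarith) (by linarith)
  have s25 := step β 24 (5) _ ((-4) + (-7) * β ^ 1 + (4) * β ^ 2 + (-6) * β ^ 3 + (-10) * β ^ 4 + (2) * β ^ 5) s24.2
    (by linear_combination (-1) * h) (by linarith) (by linarith)
  have s26 := step β 25 (0) _ ((-2) + (6) * β ^ 1 + (-1) * β ^ 2 + (0) * β ^ 3 + (0) * β ^ 4 + (0) * β ^ 5) s25.2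
    (by linear_combination (2) * h) (by linarith) (by linarith)
  have s27 := step β 26 (4) _ ((-4) + (-2) * β ^ 1 + (6) * β ^ 2 + (-1) * β ^ 3 + (0) * β ^ 4 + (0) * β ^ 5) s26.2
    (by linear_combination (0) * h) (by linarith) (by linarith)
  have s28 := step β 27 (0) _ ((0) + (-4) * β ^ 1 + (-2) * β ^ 2 + (6) * β ^ 3 + (-1) * β ^ 4 + (0) * β ^ 5) s27.2
    (by linear_combination (0) * h) (by linarith) (by linarith)
  have s29 := step β 28 (1) _ ((-1) + (0) * β ^ 1 + (-4) * β ^ 2 + (-2) * β ^ 3 + (6) * β ^ 4 + (-1) * β ^ 5) s28.2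
    (by linear_combination (0) * h) (by linarith) (by linarith)
  have s30 := step β 29 (4) _ ((-3) + (-6) * β ^ 1 + (-3) * β ^ 2 + (-2) * β ^ 3 + (-5) * β ^ 4 + (1) * β ^ 5) s29.2
    (by linear_combination (-1) * h) (by linarith) (by linarith)
  have s31 := step β 30 (2) _ ((-3) + (2) * β ^ 1 + (-3) * β ^ 2 + (-5) * β ^ 3 + (1) * β ^ 4 + (0) * β ^ 5) s30.2
    (by linear_combination (1) * h) (by linarith) (by linarith)
  have s32 := step β 31 (4) _ ((-4) + (-3) * β ^ 1 + (2) * β ^ 2 + (-3) * β ^ 3 + (-5) * β ^ 4 + (1) * β ^ 5) s31.2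
    (by linear_combination (0) * h) (by linarith) (by linarith)
  have s33 := step β 32 (4) _ ((-5) + (1) * β ^ 1 + (0) * β ^ 2 + (0) * β ^ 3 + (0) * β ^ 4 + (0) * β ^ 5) s32.2
    (by linear_combination (1) * h) (by linarith) (by linarith)
  refine ⟨fun i hi => ?_, s33.2.trans s1.2.symm⟩
  interval_cases i
  exacts [s1.1, s2.1, s3.1, s4.1, s5.1, s6.1, s7.1, s8.1, s9.1, s10.1, s11.1, s12.1, s13.1, s14.1, s15.1, s16.1, s17.1, s18.1, s19.1, s20.1, s21.1, s22.1, s23.1, s24.1, s25.1, s26.1, s27.1, s28.1, s29.1, s30.1, s31.1, s32.1, s33.1]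

theorem shift : ∀ t < 32, (∀ i < 32, digs.getD (i + 1) 0 = digs.getD ((i + t) % 32 + 1) 0) → t = 0 := by
  decide +kernel

theorem roots (β : ℝ) (l1 : 5.5 ≤ β) (u1 : β ≤ 5.51)
    (h : β ^ 6 - 5 * β ^ 5 - 3 * β ^ 4 + 2 * β ^ 3 - 3 * β ^ 2 - 5 * β + 1 = 0) :
    (∀ z : ℂ, aeval z P6 = 0 → z ≠ β → ‖z‖ ≤ 1) ∧ ∃ z : ℂ, aeval z P6 = 0 ∧ ‖z‖ = 1 := by
  have hb : β ≠ 0 := by linarith
  obtain ⟨γ, hγ⟩ : ∃ γ : ℝ, β * γ = 1 := ⟨β⁻¹, mul_inv_cancel₀ hb⟩
  have g1 : 0.18 ≤ γ := by nlinarith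
  have g2 : γ ≤ 0.19 := by nlinarith
  obtain ⟨e, he⟩ : ∃ e : ℝ, e = β + γ - 5 := ⟨_, rfl⟩
  obtain ⟨f, hf⟩ : ∃ f : ℝ, f = (β + γ) ^ 2 - 5 * (β + γ) - 6 := ⟨_, rfl⟩
  have hu : (β + γ) * f = -12 := by
    rw [hf]
    linear_combination γ ^ 3 * h + (-β ^ 5 * γ ^ 2 - β ^ 4 * γ - β ^ 3 + 5 * β ^ 4 * γ ^ 2 + 5 * β ^ 3 * γ
      + 5 * β ^ 2 + 3 * β ^ 3 * γ ^ 2 + 3 * β ^ 2 * γ + 6 * β - 2 * β ^ 2 * γ ^ 2 - 2 * β * γ - 12
      + 3 * β * γ ^ 2 + 6 * γ + 5 * γ ^ 2) * hγ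
  have e1 : 0.68 ≤ e := by linarith
  have e2 : e ≤ 0.7 := by linarith
  have f1 : -2.2 ≤ f := by nlinarith
  have f2 : f ≤ -2 := by nlinarith
  have fac : ∀ z : ℂ, aeval z P6 =
      (z - β) * (z - γ) * ((z ^ 2 + 1) ^ 2 + e * z * (z ^ 2 + 1) + f * z ^ 2) := by
    intro z
    have hγ' : (β : ℂ) * γ = 1 := by exact_mod_cast hγ
    have hu' : ((β : ℂ) + γ) * f = -12 := by exact_mod_cast hu
    have he' : (e : ℂ) = β + γ - 5 := by exact_mod_cast he
    have hf' : (f : ℂ) = (β + γ) ^ 2 - 5 * (β + γ) - 6 := by exact_mod_cast hf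
    simp only [P6, map_add, map_sub, map_mul, map_pow, aeval_X, map_one, map_ofNat]
    linear_combination (-((z ^ 2 + 1) ^ 2 + e * z * (z ^ 2 + 1) + f * z ^ 2)) * hγ' + z ^ 3 * hu'
      + (-(z * (z ^ 2 + 1) ^ 2) + (β + γ) * z ^ 2 * (z ^ 2 + 1)) * he' - z ^ 2 * (z ^ 2 + 1) * hf'
  constructor
  · intro z hz hne
    rw [fac] at hz
    rcases mul_eq_zero.1 hz with h1 | h1
    · rcases mul_eq_zero.1 h1 with h2 | h2
      · exact absurd (sub_eq_zero.1 h2) hne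
      · rw [sub_eq_zero.1 h2, Complex.norm_real, Real.norm_eq_abs, abs_le]
        constructor <;> linarith
    · have hz0 : z ≠ 0 := by
        rintro rfl
        simp at h1
      obtain ⟨w, hw⟩ : ∃ w : ℂ, z ^ 2 + 1 = w * z := ⟨(z ^ 2 + 1) / z, (div_mul_cancel₀ _ hz0).symm⟩
      have h2 : w ^ 2 + e * w + f = 0 := by
        apply mul_left_cancel₀ (pow_ne_zero 2 hz0)
        rw [hw] at h1
        linear_combination h1
      have a1 := congrArg Complex.re h2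
      have a2 := congrArg Complex.im h2
      have b1 := congrArg Complex.re hw
      have b2 := congrArg Complex.im hw
      simp [sq] at a1 a2 b1 b2
      have wi : w.im = 0 := by
        by_contra hne
        have : 2 * w.re + e = 0 := by
          apply mul_left_cancel₀ hne
          linear_combination a2
        nlinarith [sq_nonneg w.im, sq_nonneg w.re]
      rw [wi] at a1 b1 b2
      have w1 : w.re < 2 := by nlinarith
      have w2 : -2 < w.re := by nlinarith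
      have zi : z.im ≠ 0 := by
        intro h0
        rw [h0] at b1
        nlinarith [sq_nonneg (2 * z.re - w.re)]
      have : w.re = 2 * z.re := by
        apply mul_left_cancel₀ zi
        linear_combination -b2
      have h3 : ‖z‖ ^ 2 = 1 := by
        rw [Complex.sq_norm, Complex.normSq_apply]
        rw [this] at b1
        linear_combination -b1
      nlinarith [norm_nonneg z]
  · obtain ⟨u, ⟨v1, v2⟩, h3⟩ := intermediate_value_Icc (a := (0 : ℝ)) (b := 2)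
      (f := fun u : ℝ => u ^ 2 + e * u + f) (by norm_num) (by fun_prop)
      (show (0 : ℝ) ∈ _ by constructor <;> linarith)
    obtain ⟨y, hy⟩ : ∃ y : ℝ, y * y = 1 - (u / 2) ^ 2 :=
      ⟨√(1 - (u / 2) ^ 2), Real.mul_self_sqrt (by nlinarith)⟩
    have hw : ((u / 2 : ℝ) + y * Complex.I : ℂ) ^ 2 + 1 = u * ((u / 2 : ℝ) + y * Complex.I) := by
      have hy' : (y : ℂ) * y = 1 - (u / 2) ^ 2 := by exact_mod_cast hy
      push_cast
      linear_combination -hy' + y ^ 2 * Complex.I_sq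
    refine ⟨(u / 2 : ℝ) + y * Complex.I, ?_, ?_⟩
    · have h4 : (u : ℂ) ^ 2 + e * u + f = 0 := by exact_mod_cast h3
      rw [fac, hw]
      refine mul_eq_zero_of_right _ ?_
      linear_combination ((u / 2 : ℝ) + y * Complex.I : ℂ) ^ 2 * h4
    · rw [Complex.norm_add_mul_I, show (u / 2) ^ 2 + y ^ 2 = 1 by linear_combination hy, Real.sqrt_one]

theorem result : ∃ (β : ℝ) (P : ℤ[X]) (p : ℕ) (Q : ℤ[X]), IsSalem β P ∧ P.natDegree = 6 ∧
    PrePer β 1 p ∧ Pk β (1 + p) - Pk β 1 = P * Q ∧ Q.reverse ≠ Q := by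
  obtain ⟨β, l1, u1, h⟩ := exists_beta
  obtain ⟨hd, hr⟩ := orbit β l1 u1 h
  have hper : ∀ n, rem β (n + 1 + 32) = rem β (n + 1) := by
    intro n
    induction n with
    | zero => exact hr
    | succ n ih => rw [show n + 1 + 1 + 32 = (n + 1 + 32) + 1 by ring, rem, ih, ← rem]
  have hdp : ∀ n, dig β (n + 2 + 32) = dig β (n + 2) := fun n => by
    unfold dig
    rw [show n + 2 + 32 - 1 = n + 1 + 32 by omega, hper, show n + 2 - 1 = n + 1 by omega]
  have hdd : ∀ n, dig β (n + 2) = digs.getD (n % 32 + 1) 0 := by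
    intro n
    induction n using Nat.strong_induction_on with
    | _ n ih =>
      by_cases hn : n < 32
      · rw [Nat.mod_eq_of_lt hn]
        exact hd (n + 1) (by omega)
      · rw [show n + 2 = n - 32 + 2 + 32 by omega, hdp, ih _ (by omega), show (n - 32) % 32 = n % 32 by omega]
  refine ⟨β, P6, 32, Q27, ⟨P6_monic, P6_irr, ?_, by linarith, roots β (by linarith) (by linarith) h⟩,
    P6_deg, ⟨⟨by norm_num, fun n hn => ?_⟩, ?_⟩, ?_, ?_⟩
  · simpa [P6, map_ofNat] using h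
  · rw [show n + 1 = n - 1 + 2 by omega, hdp]
  · rintro m p ⟨h1, h2⟩
    have h3 : p % 32 = 0 := by
      refine shift _ (by omega) fun i hi => ?_
      have := h2 (31 * m + i + 2) (by omega)
      rw [show 31 * m + i + 2 + m = 32 * m + i + 2 by ring, show 32 * m + i + 2 + p = 32 * m + i + p + 2 by ring,
        hdd, hdd, show (32 * m + i) % 32 = i by omega, show (32 * m + i + p) % 32 = (i + p % 32) % 32 by omega]
        at this
      exact this
    refine ⟨Nat.pos_of_ne_zero ?_, by omega⟩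
    rintro rfl
    have := h2 1 le_rfl
    rw [show 1 + 0 + p = p - 1 + 2 by omega, hdd, show (p - 1) % 32 = 31 by omega, add_zero,
      show dig β 1 = _ from hd 0 (by omega)] at this
    revert this
    decide
  · unfold Pk
    rw [Finset.sum_congr rfl fun i hi => by rw [hd i (Finset.mem_range.1 hi)],
      Finset.sum_congr (s₁ := Finset.range 1) rfl fun i hi => by
        rw [hd i (by have := Finset.mem_range.1 hi; omega)]]
    simp [Finset.sum_range_succ, digs, P6, Q27]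
    ring
  · intro hQ
    have h1 : Q27.natDegree = 27 := by unfold Q27; compute_degree!
    have h2 := congrArg (fun f => coeff f 9) hQ
    simp only [coeff_reverse, h1] at h2
    rw [revAt_le (by norm_num)] at h2
    simp [Q27, coeff_X_pow, coeff_X, coeff_one] at h2

end Pool.Agent.Results.MP_9c9d6b_nt.Counter
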